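import Pool.Agent.Helper7.KS2.Defs

/-! Packet D of MP_c4bd07_co: the combinatorial trichotomy. -/

set_option autoImplicit false
open Classical

namespace Pool.Agent.Helper41.KS2

open Pool.Agent.Helper7.KS2

/-- Mantel's theorem in a weighted double counting form. -/
theorem mantel {V : Type} (Z : Finset V) (T : V → V → Prop) (hs : ∀ u w, T u w → T w u)
    (htri : ∀ u ∈ Z, ∀ w ∈ Z, ∀ z ∈ Z, T u w → T w z → T u z → False) :
    ((∑ u ∈ Z, (Z.filter (fun w => T u w)).card : ℕ) : ℝ) ≤ (Z.card : ℝ) ^ 2 / 2 := by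
  set d : V → ℕ := fun u => (Z.filter (fun w => T u w)).card with hd
  have h1 : ∀ u ∈ Z, ∀ w ∈ Z, T u w → d u + d w ≤ Z.card := by
    intro u hu w hw huw
    have hdis : Disjoint (Z.filter (fun z => T u z)) (Z.filter (fun z => T w z)) := by
      rw [Finset.disjoint_left]
      intro z hz1 hz2
      rw [Finset.mem_filter] at hz1 hz2
      exact htri u hu w hw z hz1.1 huw hz2.2 hz1.2
    rw [hd]
    show (Z.filter (fun z => T u z)).card + (Z.filter (fun z => T w z)).card ≤ Z.card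
    rw [← Finset.card_union_of_disjoint hdis]
    apply Finset.card_le_card
    intro z hz
    rw [Finset.mem_union, Finset.mem_filter, Finset.mem_filter] at hz
    rcases hz with hz | hz <;> exact hz.1
  -- double counting
  have h2 : ∑ u ∈ Z, ∑ w ∈ Z, (if T u w then d u + d w else 0) ≤ ∑ u ∈ Z, d u * Z.card := by
    apply Finset.sum_le_sum
    intro u hu
    have : ∑ w ∈ Z, (if T u w then d u + d w else 0) ≤ ∑ w ∈ Z, (if T u w then Z.card else 0) := by
      apply Finset.sum_le_sum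
      intro w hw
      by_cases h : T u w
      · rw [if_pos h, if_pos h]; exact h1 u hu w hw h
      · rw [if_neg h, if_neg h]
    refine this.trans (le_of_eq ?_)
    rw [← Finset.sum_filter, Finset.sum_const, smul_eq_mul]
  have h3 : ∑ u ∈ Z, ∑ w ∈ Z, (if T u w then d u + d w else 0) = 2 * ∑ u ∈ Z, d u ^ 2 := by
    have e1 : ∀ u ∈ Z, ∀ w ∈ Z, (if T u w then d u + d w else 0)
        = (if T u w then d u else 0) + (if T u w then d w else 0) := by
      intro u _ w _
      by_cases h : T u w <;> simp [h]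
    have e2 : ∑ u ∈ Z, ∑ w ∈ Z, (if T u w then d u else 0) = ∑ u ∈ Z, d u ^ 2 := by
      apply Finset.sum_congr rfl
      intro u _
      rw [← Finset.sum_filter, Finset.sum_const, smul_eq_mul, sq]
    have e3 : ∑ u ∈ Z, ∑ w ∈ Z, (if T u w then d w else 0) = ∑ u ∈ Z, d u ^ 2 := by
      rw [Finset.sum_comm]
      apply Finset.sum_congr rfl
      intro u _
      have : ∀ w ∈ Z, (if T w u then d u else 0) = (if T u w then d u else 0) := by
        intro w _
        by_cases h : T u w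
        · rw [if_pos h, if_pos (hs _ _ h)]
        · rw [if_neg h, if_neg (fun h' => h (hs _ _ h'))]
      rw [Finset.sum_congr rfl this, ← Finset.sum_filter, Finset.sum_const, smul_eq_mul, sq]
    rw [Finset.sum_congr rfl (fun u hu => Finset.sum_congr rfl (e1 u hu))]
    simp only [Finset.sum_add_distrib]
    rw [e2, e3]; ring
  have h4 : (∑ u ∈ Z, (d u : ℝ)) ^ 2 ≤ Z.card * ∑ u ∈ Z, (d u : ℝ) ^ 2 :=
    sq_sum_le_card_mul_sum_sq
  have h5 : 2 * ∑ u ∈ Z, (d u : ℝ) ^ 2 ≤ (∑ u ∈ Z, (d u : ℝ)) * Z.card := by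
    rw [h3, ← Finset.sum_mul] at h2
    exact_mod_cast h2
  have h6 : ((∑ u ∈ Z, d u : ℕ) : ℝ) = ∑ u ∈ Z, (d u : ℝ) := by push_cast; rfl
  show ((∑ u ∈ Z, d u : ℕ) : ℝ) ≤ (Z.card : ℝ) ^ 2 / 2
  rw [h6]
  set P := ∑ u ∈ Z, (d u : ℝ) with hP
  have hP0 : 0 ≤ P := Finset.sum_nonneg fun _ _ => Nat.cast_nonneg _
  have hZ0 : (0 : ℝ) ≤ Z.card := Nat.cast_nonneg _
  by_contra hcon
  rw [not_le] at hcon
  have hPpos : 0 < P := lt_of_le_of_lt (by positivity) hcon
  have h7 : P ^ 2 ≤ Z.card * (P * Z.card / 2) := by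
    refine h4.trans ?_
    apply mul_le_mul_of_nonneg_left _ hZ0
    linarith
  nlinarith

/-- Counting pairs of distinct elements. -/
theorem pair_count {V : Type} [Fintype V] (G : SimpleGraph V) (Y : Finset V) (T : V → V → Prop)
    (B : Finset (V × V))
    (h : ∀ u ∈ Y, ∀ w ∈ Y, u ≠ w → G.Adj u w ∨ T u w ∨ (u, w) ∈ B) :
    (Y.card : ℝ) * ((Y.card : ℝ) - 1)
      ≤ adj2 G Y + ((∑ u ∈ Y, (Y.filter (fun w => T u w)).card : ℕ) : ℝ) + B.card := by
  have hc : ∀ R : V → V → Prop, ((Y ×ˢ Y).filter (fun p => R p.1 p.2)).card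
      = ∑ u ∈ Y, (Y.filter (fun w => R u w)).card := by
    intro R
    rw [Finset.card_filter, Finset.sum_product]
    apply Finset.sum_congr rfl
    intro u _
    rw [Finset.card_filter]
  have hsub : Y.offDiag ⊆ (Y ×ˢ Y).filter (fun p => G.Adj p.1 p.2) ∪
      ((Y ×ˢ Y).filter (fun p => T p.1 p.2) ∪ B) := by
    rintro ⟨u, w⟩ hp
    rw [Finset.mem_offDiag] at hp
    rw [Finset.mem_union, Finset.mem_union, Finset.mem_filter, Finset.mem_filter,
      Finset.mem_product]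
    rcases h u hp.1 w hp.2.1 hp.2.2 with h1 | h1 | h1
    · exact Or.inl ⟨⟨hp.1, hp.2.1⟩, h1⟩
    · exact Or.inr (Or.inl ⟨⟨hp.1, hp.2.1⟩, h1⟩)
    · exact Or.inr (Or.inr h1)
  have h1 : Y.offDiag.card ≤ adj2 G Y + (∑ u ∈ Y, (Y.filter (fun w => T u w)).card + B.card) := by
    refine (Finset.card_le_card hsub).trans ((Finset.card_union_le _ _).trans ?_)
    refine add_le_add (le_of_eq (hc _)) ((Finset.card_union_le _ _).trans ?_)
    exact add_le_add (le_of_eq (hc _)) le_rfl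
  have h2 : (Y.offDiag.card : ℝ) = (Y.card : ℝ) * ((Y.card : ℝ) - 1) := by
    rw [Finset.offDiag_card, Nat.cast_sub (Nat.le_mul_self _)]
    push_cast; ring
  rw [← h2]
  have h3 : (Y.offDiag.card : ℝ)
      ≤ ((adj2 G Y + (∑ u ∈ Y, (Y.filter (fun w => T u w)).card + B.card) : ℕ) : ℝ) := by
    exact_mod_cast h1
  push_cast at h3 ⊢
  linarith

theorem pair_count0 {V : Type} [Fintype V] (G : SimpleGraph V) (Y : Finset V)
    (B : Finset (V × V)) (h : ∀ u ∈ Y, ∀ w ∈ Y, u ≠ w → G.Adj u w ∨ (u, w) ∈ B) :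
    (Y.card : ℝ) * ((Y.card : ℝ) - 1) ≤ adj2 G Y + B.card := by
  have h1 := pair_count G Y (fun _ _ => False) B (fun u hu w hw huw =>
    (h u hu w hw huw).elim Or.inl fun h => Or.inr (Or.inr h))
  simpa using h1

theorem card_inter_ge {c : ℕ} (A B D : Finset (Fin c)) (s : ℝ)
    (hA : ((A \ D).card : ℝ) < s) (hB : ((B \ D).card : ℝ) < s) :
    (A.card : ℝ) + B.card - D.card - 2 * s < ((A ∩ B).card : ℝ) := by
  have h1 : (A ∪ B).card + (A ∩ B).card = A.card + B.card := Finset.card_union_add_card_inter A B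
  have h2 : (A ∪ B).card ≤ D.card + ((A \ D).card + (B \ D).card) := by
    have hsub : A ∪ B ⊆ D ∪ ((A \ D) ∪ (B \ D)) := by
      intro x hx
      simp only [Finset.mem_union, Finset.mem_sdiff] at hx ⊢
      tauto
    refine (Finset.card_le_card hsub).trans ((Finset.card_union_le _ _).trans ?_)
    exact add_le_add le_rfl (Finset.card_union_le _ _)
  have h1' : ((A ∪ B).card : ℝ) + (A ∩ B).card = A.card + B.card := by exact_mod_cast h1
  have h2' : ((A ∪ B).card : ℝ) ≤ D.card + ((A \ D).card + (B \ D).card) := by exact_mod_cast h2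
  linarith

theorem card_le_sdiff {c : ℕ} (A D : Finset (Fin c)) :
    (A.card : ℝ) ≤ D.card + (A \ D).card := by
  have : A.card ≤ D.card + (A \ D).card := by
    have hsub : A ⊆ D ∪ (A \ D) := by
      intro x hx
      simp only [Finset.mem_union, Finset.mem_sdiff]
      tauto
    exact (Finset.card_le_card hsub).trans (Finset.card_union_le _ _)
  exact_mod_cast this

theorem card_three {c : ℕ} (A B D : Finset (Fin c)) :
    (A.card : ℝ) + B.card + D.card - (A ∩ B).card - (B ∩ D).card - (A ∩ D).card ≤ c := by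
  have h1 : (A ∪ B).card + (A ∩ B).card = A.card + B.card := Finset.card_union_add_card_inter A B
  have h2 : ((A ∪ B) ∪ D).card + ((A ∪ B) ∩ D).card = (A ∪ B).card + D.card :=
    Finset.card_union_add_card_inter _ _
  have h3 : ((A ∪ B) ∩ D).card ≤ (A ∩ D).card + (B ∩ D).card := by
    rw [Finset.union_inter_distrib_right]
    exact Finset.card_union_le _ _
  have h4 : ((A ∪ B) ∪ D).card ≤ c := by
    simpa using Finset.card_le_univ ((A ∪ B) ∪ D)
  have h1' : ((A ∪ B).card : ℝ) + (A ∩ B).card = A.card + B.card := by exact_mod_cast h1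
  have h2' : (((A ∪ B) ∪ D).card : ℝ) + ((A ∪ B) ∩ D).card = (A ∪ B).card + D.card := by
    exact_mod_cast h2
  have h3' : (((A ∪ B) ∩ D).card : ℝ) ≤ (A ∩ D).card + (B ∩ D).card := by exact_mod_cast h3
  have h4' : (((A ∪ B) ∪ D).card : ℝ) ≤ c := by exact_mod_cast h4
  linarith

/-- Numerical contradiction in case A. -/
theorem numA {θ m x n a : ℝ} (hθ : 0 < θ) (hθ4 : θ ≤ 1 / 400) (hm : 1 ≤ θ * m)
    (hx : n - θ * m < x) (hn : (1 - 3 * θ) * m ≤ n) (hxn : x ≤ n)
    (hnA : n ≤ (2 - 20 * θ) * m)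
    (h1 : x * (x - 1) ≤ a + θ * m ^ 2)
    (h2 : (1 - 3 * θ) * m * x + a / 2 ≤ (x + 3 * θ * m) * x) : False := by
  have hm0 : 0 < m := by
    by_contra h
    have : θ * m ≤ 0 := mul_nonpos_of_nonneg_of_nonpos hθ.le (not_lt.1 h)
    linarith
  have hx2 : m / 2 ≤ x := by nlinarith
  have hx0 : 0 < x := by linarith
  have e1 : θ * m ^ 2 ≤ 2 * θ * m * x := by nlinarith [mul_pos hθ hm0]
  have e2 : x ≤ θ * m * x := by nlinarith
  have e3 : (2 - 15 * θ) * m * x ≤ x ^ 2 := by nlinarith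
  have e4 : (2 - 15 * θ) * m ≤ x := by
    have : (2 - 15 * θ) * m * x ≤ x * x := by linarith [e3, sq x]
    exact le_of_mul_le_mul_right this hx0
  nlinarith [mul_pos hθ hm0]

/-- Numerical bound for `Z`. -/
theorem numZ {θ σ m z a : ℝ} (hσ : 0 < σ) (hσ2 : σ ≤ 1 / 20) (hθσ : θ = σ ^ 2)
    (hm : 1 ≤ θ * m) (hz : 0 ≤ z) (ha : a ≤ 18 * θ * m * z)
    (h1 : z * (z - 1) ≤ a + z ^ 2 / 2 + θ * m ^ 2) : z ≤ 3 * σ * m := by
  by_contra hcon
  rw [not_le] at hcon
  have hθ : 0 < θ := by rw [hθσ]; positivity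
  have hm0 : 0 < m := by
    by_contra h
    have : θ * m ≤ 0 := mul_nonpos_of_nonneg_of_nonpos hθ.le (not_lt.1 h)
    linarith
  have hz0 : 0 < z := lt_trans (by positivity) hcon
  have e1 : z ≤ θ * m * z := by nlinarith
  have e2 : z ^ 2 ≤ 38 * θ * m * z + 2 * θ * m ^ 2 := by nlinarith
  have e3 : σ * m ≤ z / 3 := by linarith
  have e4 : θ * m * z ≤ (1 / 20) * (z / 3) * z := by
    have : θ * m = σ * (σ * m) := by rw [hθσ]; ring
    rw [this]
    have h5 : σ * (σ * m) ≤ 1 / 20 * (z / 3) := by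
      apply mul_le_mul hσ2 e3 (by positivity) (by norm_num)
    exact mul_le_mul_of_nonneg_right h5 hz0.le
  have e5 : θ * m ^ 2 ≤ (z / 3) ^ 2 := by
    have : θ * m ^ 2 = (σ * m) ^ 2 := by rw [hθσ]; ring
    rw [this]
    apply pow_le_pow_left₀ (by positivity) e3
  nlinarith [mul_pos hz0 hz0]

/-- Numerical contradiction in case B. -/
theorem numB {κ θ σ m s a : ℝ} (hκ : 0 < κ) (hκ1 : κ ≤ 1) (hσ : σ = κ ^ 2 / 20)
    (hθσ : θ = σ ^ 2) (hm : 1 ≤ θ * m)
    (hs : (2 - 21 * θ - 3 * σ) * m ≤ s) (hs2 : s ≤ (2 + θ) * m)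
    (h1 : s * (s - 1) ≤ a + θ * m ^ 2)
    (h2 : a ≤ 2 * m * s - κ ^ 2 * m ^ 2) : False := by
  have hσ0 : 0 < σ := by rw [hσ]; positivity
  have hκ2 : κ ^ 2 ≤ 1 := by nlinarith
  have hσ20 : σ ≤ 1 / 20 := by rw [hσ]; linarith
  have hθ : 0 < θ := by rw [hθσ]; positivity
  have hθs : θ ≤ σ / 20 := by rw [hθσ]; nlinarith
  have hm0 : 0 < m := by
    by_contra h
    have : θ * m ≤ 0 := mul_nonpos_of_nonneg_of_nonpos hθ.le (not_lt.1 h)
    linarith
  have hs0 : 0 < s := by
    refine lt_of_lt_of_le ?_ hs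
    apply mul_pos _ hm0
    linarith
  have e1 : s ≤ θ * m * s := by nlinarith
  have e2 : s * (s - 2 * m) ≤ s + θ * m ^ 2 - κ ^ 2 * m ^ 2 := by nlinarith
  have e3 : -((21 * θ + 3 * σ) * m) ≤ s - 2 * m := by nlinarith
  have e4 : -((21 * θ + 3 * σ) * m) * s ≤ s * (s - 2 * m) := by
    have := mul_le_mul_of_nonneg_left e3 hs0.le
    linarith
  have e5 : (21 * θ + 3 * σ) * m * s ≤ (21 * θ + 3 * σ) * m * ((2 + θ) * m) := by
    apply mul_le_mul_of_nonneg_left hs2
    positivity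
  have e6 : θ * m * s ≤ θ * m * ((2 + θ) * m) := by
    apply mul_le_mul_of_nonneg_left hs2
    positivity
  have e7 : κ ^ 2 * m ^ 2 ≤ ((21 * θ + 3 * σ) * (2 + θ) + θ * (2 + θ) + θ) * m ^ 2 := by
    nlinarith
  have e8 : κ ^ 2 ≤ (21 * θ + 3 * σ) * (2 + θ) + θ * (2 + θ) + θ :=
    le_of_mul_le_mul_right e7 (by positivity)
  have hκσ : κ ^ 2 = 20 * σ := by rw [hσ]; ring
  rw [hκσ] at e8
  nlinarith

theorem stmtComb : StmtComb := by
  intro κ θ hκ hκ1 hθκ M hM c hc V _ G L o H1 H2 H3 H4 H5 v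
  set m : ℝ := (M : ℝ) with hm
  obtain ⟨σ, hσ⟩ : ∃ σ : ℝ, σ = κ ^ 2 / 20 := ⟨_, rfl⟩
  have hθσ : θ = σ ^ 2 := by rw [hθκ, hσ]; ring
  have hσ0 : 0 < σ := by rw [hσ]; positivity
  have hκ2 : κ ^ 2 ≤ 1 := by nlinarith
  have hσ20 : σ ≤ 1 / 20 := by rw [hσ]; linarith
  have hθ : 0 < θ := by rw [hθσ]; positivity
  have hθ4 : θ ≤ 1 / 400 := by rw [hθσ]; nlinarith
  have hm0 : 0 < m := by
    by_contra h
    have : θ * m ≤ 0 := mul_nonpos_of_nonneg_of_nonpos hθ.le (not_lt.1 h)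
    linarith
  -- basic bounds
  have ho : ∀ u, (o u : ℝ) ≤ (1 + θ) * m := by
    intro u
    have := H4 {u} (Finset.singleton_nonempty u)
    rw [Finset.sum_singleton, Finset.card_singleton] at this
    have h0 : (0 : ℝ) ≤ (adj2 G {u} : ℝ) / 2 := by positivity
    push_cast at this
    linarith
  have hL : ∀ u, (1 - 3 * θ) * m ≤ ((L u).card : ℝ) := by
    intro u
    have h1 := H3 u
    have h2 := ho u
    linarith
  have hn1 : (1 - 3 * θ) * m ≤ (dg G v : ℝ) := by
    have h1 := H1 v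
    have h2 := ho v
    linarith
  have hn2 : (dg G v : ℝ) ≤ (2 + θ) * m := by
    have h1 := H2 v
    have h0 : (0 : ℝ) ≤ o v := Nat.cast_nonneg _
    linarith
  have hstar : ∀ Y : Finset V, Y.Nonempty →
      (1 - 3 * θ) * m * Y.card + (adj2 G Y : ℝ) / 2 ≤ ∑ u ∈ Y, ((L u).card : ℝ) := by
    intro Y hY
    have h1 := H4 Y hY
    have h2 : ∑ u ∈ Y, ((2 - 2 * θ) * m - o u) ≤ ∑ u ∈ Y, ((L u).card : ℝ) := by
      apply Finset.sum_le_sum
      intro u _
      have := H3 u
      linarith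
    rw [Finset.sum_sub_distrib, Finset.sum_const, nsmul_eq_mul] at h2
    linarith
  by_contra hcon
  rw [not_or, not_or] at hcon
  obtain ⟨c1, c2, c3⟩ := hcon
  rw [not_le] at c1
  unfold richB at c2
  unfold richC at c3
  rw [not_le] at c2 c3
  set Bg : Finset (V × V) := Finset.univ.filter (fun p : V × V => G.Adj v p.1 ∧ G.Adj v p.2 ∧
    p.1 ≠ p.2 ∧ ¬ G.Adj p.1 p.2 ∧ θ * M ≤ (((L p.1 ∩ L p.2).card : ℕ) : ℝ)) with hBg
  obtain ⟨N', hN'⟩ : ∃ N' : Finset V, N' = Finset.univ.filter (fun u : V => G.Adj v u ∧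
    (((L u \ L v).card : ℕ) : ℝ) < θ * M) := ⟨_, rfl⟩
  have memN' : ∀ u, u ∈ N' ↔ G.Adj v u ∧ (((L u \ L v).card : ℕ) : ℝ) < θ * m := by
    intro u; rw [hN']; simp [hm]
  have cN1 : (N'.card : ℝ) ≤ dg G v := by
    have : N'.card ≤ dg G v := by
      unfold dg
      apply Finset.card_le_card
      intro u hu
      rw [Finset.mem_filter]
      exact ⟨Finset.mem_univ _, ((memN' u).1 hu).1⟩
    exact_mod_cast this
  have cN2 : (dg G v : ℝ) - θ * m < N'.card := by
    have h1 : dg G v ≤ N'.card + (Finset.univ.filter (fun u : V => G.Adj v u ∧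
        θ * M ≤ (((L u \ L v).card : ℕ) : ℝ))).card := by
      unfold dg
      refine le_trans (Finset.card_le_card ?_) (Finset.card_union_le _ _)
      intro u hu
      rw [Finset.mem_filter] at hu
      rw [Finset.mem_union, memN', Finset.mem_filter]
      by_cases h : (((L u \ L v).card : ℕ) : ℝ) < θ * m
      · exact Or.inl ⟨hu.2, h⟩
      · exact Or.inr ⟨Finset.mem_univ _, hu.2, not_lt.1 h⟩
    have h1' : (dg G v : ℝ) ≤ N'.card + ((Finset.univ.filter (fun u : V => G.Adj v u ∧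
        θ * M ≤ (((L u \ L v).card : ℕ) : ℝ))).card : ℝ) := by exact_mod_cast h1
    linarith
  by_cases hA : (dg G v : ℝ) ≤ (2 - 20 * θ) * m
  · -- case A
    have hbig : ∀ u ∈ N', ∀ w ∈ N', u ≠ w → G.Adj u w ∨ (u, w) ∈ Bg := by
      intro u hu w hw huw
      by_cases hadj : G.Adj u w
      · exact Or.inl hadj
      · refine Or.inr ?_
        rw [hBg, Finset.mem_filter]
        have hu' := (memN' u).1 hu
        have hw' := (memN' w).1 hw
        refine ⟨Finset.mem_univ _, hu'.1, hw'.1, huw, hadj, ?_⟩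
        have h1 := card_inter_ge (L u) (L w) (L v) (θ * m) hu'.2 hw'.2
        have h2 := hL u
        have h3 := hL w
        show θ * m ≤ (((L u ∩ L w).card : ℕ) : ℝ)
        have h4 : 0 < θ * m := by positivity
        nlinarith
    have h1 := pair_count0 G N' Bg hbig
    have h1' : (N'.card : ℝ) * ((N'.card : ℝ) - 1) ≤ adj2 G N' + θ * m ^ 2 := by
      linarith
    have hne : N'.Nonempty := by
      rw [← Finset.card_pos]
      have : (0 : ℝ) < N'.card := by
        have h4 : 0 < (1 - 4 * θ) * m := mul_pos (by linarith) hm0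
        nlinarith
      exact_mod_cast this
    have h2 := hstar N' hne
    have h3 : ∑ u ∈ N', ((L u).card : ℝ) ≤ (N'.card + 3 * θ * m) * N'.card := by
      have : ∀ u ∈ N', ((L u).card : ℝ) ≤ N'.card + 3 * θ * m := by
        intro u hu
        have hu' := (memN' u).1 hu
        have h5 := card_le_sdiff (L u) (L v)
        linarith
      refine (Finset.sum_le_sum this).trans (le_of_eq ?_)
      rw [Finset.sum_const, nsmul_eq_mul]; ring
    exact numA hθ hθ4 hM cN2 hn1 cN1 hA h1' (h2.trans h3)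
  · -- case B
    rw [not_le] at hA
    have hcard : ∀ u, ((L u).card : ℝ) ≤ 2 * m := by
      intro u
      have h1 : (L u).card ≤ c := by simpa using Finset.card_le_univ (L u)
      have h2 : ((L u).card : ℝ) ≤ ((2 * M : ℕ) : ℝ) := by exact_mod_cast h1.trans hc
      push_cast at h2
      exact h2
    obtain ⟨Z, hZ⟩ : ∃ Z : Finset V, Z = N'.filter (fun u => ((L u).card : ℝ) ≤ (1 + 6 * θ) * m) :=
      ⟨_, rfl⟩
    have memZ : ∀ u, u ∈ Z ↔ u ∈ N' ∧ ((L u).card : ℝ) ≤ (1 + 6 * θ) * m := by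
      intro u; rw [hZ, Finset.mem_filter]
    -- bound on adj2 Z
    have hadjZ : (adj2 G Z : ℝ) ≤ 18 * θ * m * Z.card := by
      by_cases hne : Z.Nonempty
      · have h1 := hstar Z hne
        have h2 : ∑ u ∈ Z, ((L u).card : ℝ) ≤ ((1 + 6 * θ) * m) * Z.card := by
          have : ∀ u ∈ Z, ((L u).card : ℝ) ≤ (1 + 6 * θ) * m := fun u hu => ((memZ u).1 hu).2
          refine (Finset.sum_le_sum this).trans (le_of_eq ?_)
          rw [Finset.sum_const, nsmul_eq_mul]; ring
        nlinarith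
      · rw [Finset.not_nonempty_iff_eq_empty] at hne
        rw [hne]
        simp [adj2]
    -- T-pairs
    have hT := mantel Z (fun u w => (((L u ∩ L w).card : ℕ) : ℝ) < θ * m)
      (fun u w h => by rw [Finset.inter_comm]; exact h) (by
        intro u hu w hw z hz h1 h2 h3
        have h4 := card_three (L u) (L w) (L z)
        have h5 : (c : ℝ) ≤ 2 * m := by
          have : (c : ℝ) ≤ ((2 * M : ℕ) : ℝ) := by exact_mod_cast hc
          push_cast at this; exact this
        have h6 := hL u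
        have h7 := hL w
        have h8 := hL z
        have h9 : 0 < m * (1 - 12 * θ) := mul_pos hm0 (by linarith)
        nlinarith)
    have hbigZ : ∀ u ∈ Z, ∀ w ∈ Z, u ≠ w →
        G.Adj u w ∨ (((L u ∩ L w).card : ℕ) : ℝ) < θ * m ∨ (u, w) ∈ Bg := by
      intro u hu w hw huw
      by_cases hadj : G.Adj u w
      · exact Or.inl hadj
      by_cases hTp : (((L u ∩ L w).card : ℕ) : ℝ) < θ * m
      · exact Or.inr (Or.inl hTp)
      · refine Or.inr (Or.inr ?_)
        rw [hBg, Finset.mem_filter]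
        exact ⟨Finset.mem_univ _, ((memN' u).1 ((memZ u).1 hu).1).1,
          ((memN' w).1 ((memZ w).1 hw).1).1, huw, hadj, not_lt.1 hTp⟩
    have h1 := pair_count G Z _ Bg hbigZ
    have hz : (Z.card : ℝ) ≤ 3 * σ * m := by
      apply numZ hσ0 hσ20 hθσ hM (Nat.cast_nonneg _) hadjZ
      linarith
    -- the rest
    obtain ⟨N2, hN2⟩ : ∃ N2 : Finset V, N2 = N' \ Z := ⟨_, rfl⟩
    have hZN : Z ⊆ N' := fun u hu => ((memZ u).1 hu).1
    have cN3 : (N2.card : ℝ) = N'.card - Z.card := by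
      rw [hN2, Finset.card_sdiff_of_subset hZN, Nat.cast_sub (Finset.card_le_card hZN)]
    have memN2 : ∀ u, u ∈ N2 ↔ u ∈ N' ∧ (1 + 6 * θ) * m < ((L u).card : ℝ) := by
      intro u
      rw [hN2, Finset.mem_sdiff, memZ]
      constructor
      · rintro ⟨h1, h2⟩
        refine ⟨h1, ?_⟩
        by_contra h3
        exact h2 ⟨h1, not_lt.1 h3⟩
      · rintro ⟨h1, h2⟩
        exact ⟨h1, fun h3 => absurd h3.2 (not_le.2 h2)⟩
    have hbig2 : ∀ u ∈ N2, ∀ w ∈ N2, u ≠ w → G.Adj u w ∨ (u, w) ∈ Bg := by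
      intro u hu w hw huw
      by_cases hadj : G.Adj u w
      · exact Or.inl hadj
      · refine Or.inr ?_
        rw [hBg, Finset.mem_filter]
        have hu2 := (memN2 u).1 hu
        have hw2 := (memN2 w).1 hw
        have hu' := (memN' u).1 hu2.1
        have hw' := (memN' w).1 hw2.1
        refine ⟨Finset.mem_univ _, hu'.1, hw'.1, huw, hadj, ?_⟩
        have h1 := card_inter_ge (L u) (L w) (L v) (θ * m) hu'.2 hw'.2
        have h3 := hL w
        have h4 := hcard v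
        show θ * m ≤ (((L u ∩ L w).card : ℕ) : ℝ)
        linarith [hu2.2]
    have h2 := pair_count0 G N2 Bg hbig2
    have h2' : (N2.card : ℝ) * ((N2.card : ℝ) - 1) ≤ adj2 G N2 + θ * m ^ 2 := by
      linarith
    have hs : (2 - 21 * θ - 3 * σ) * m ≤ (N2.card : ℝ) := by
      rw [cN3]; nlinarith
    have hs2 : (N2.card : ℝ) ≤ (2 + θ) * m := by
      have h0 : (0 : ℝ) ≤ Z.card := Nat.cast_nonneg _
      rw [cN3]; linarith
    have hMN : M ≤ N2.card := by
      have h6 : m ≤ N2.card := by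
        refine le_trans ?_ hs
        have h7 : 0 ≤ (1 - 21 * θ - 3 * σ) * m := mul_nonneg (by linarith) hm0.le
        linarith
      rw [hm] at h6
      exact_mod_cast h6
    exact numB hκ hκ1 hσ hθσ hM hs hs2 h2' (H5 N2 hMN)

end Pool.Agent.Helper41.KS2
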