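import Mathlib

/-!
A graph on a set of size `ℵ_{ω+1}` with no independent set of full size and no pair of points
joined to a common infinite clique.
-/

set_option autoImplicit false

namespace Pool.Agent.Helper41.OmegaTwo

open Cardinal Set

/-- Greedy selection along a well-founded relation. -/
theorem greedy {T X W : Type} (r : T → T → Prop) (hr : WellFounded r)
    (S : T → Set X) (v : X → W) :
    ∃ g : T → Option X, ∀ t,
      (∀ x, g t = some x → x ∈ S t ∧ ∀ t', r t' t → ∀ x', g t' = some x' → v x' ≠ v x) ∧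
      (g t = none → ∀ x ∈ S t, ∃ t', r t' t ∧ ∃ x', g t' = some x' ∧ v x' = v x) := by
  classical
  let step : (t : T) → ((t' : T) → r t' t → Option X) → Option X := fun t ih =>
    if h : ∃ x ∈ S t, ∀ t' (ht : r t' t) x', ih t' ht = some x' → v x' ≠ v x then
      some h.choose else none
  let g := hr.fix step
  have hg : ∀ t, g t = step t (fun t' _ => g t') := fun t => hr.fix_eq step t
  refine ⟨g, fun t => ⟨?_, ?_⟩⟩
  · intro x hx
    rw [hg] at hx
    simp only [step] at hx
    split_ifs at hx with h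
    have := h.choose_spec
    simp only [Option.some.injEq] at hx
    rw [hx] at this
    exact ⟨this.1, fun t' ht x' hx' => this.2 t' ht x' hx'⟩
  · intro hn x hx
    rw [hg] at hn
    simp only [step] at hn
    split_ifs at hn with h
    push Not at h
    obtain ⟨t', ht, x', h1, h2⟩ := h x hx
    exact ⟨t', ht, x', h1, h2⟩

/-- The construction. -/
theorem exists_graph {α W V : Type} [LinearOrder α] [LinearOrder W]
    [LinearOrder V] [WellFoundedLT V]
    (F : α → ℕ → W) (A : α → Set α) (e : α → α → V) (he : ∀ a, Set.InjOn (e a) (Set.Iio a)) :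
    ∃ G : α → α → Prop,
      (∀ x a, G x a → x < a) ∧
      (∀ x a, G x a → ∃ n, (∀ i < n, F x i = F a i) ∧ F a n < F x n) ∧
      (∀ x y a n, G x a → G y a → x ≠ y → (∀ i < n, F x i = F a i) → F a n < F x n →
        (∀ i < n, F y i = F a i) → F a n < F y n → F x n ≠ F y n) ∧
      (∀ a η n, η < a → (∀ x ∈ A η, ¬ G x a) →
        #{w : W | ∃ x ∈ A η, x < a ∧ (∀ i < n, F x i = F a i) ∧ F a n < F x n ∧ F x n = w} ≤
          #{v : V | v < e a η}) := by
  classical
  let r : (a : α) → {η : α // η < a} → {η : α // η < a} → Prop := fun a p q => e a p.1 < e a q.1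
  have hr : ∀ a, WellFounded (r a) := fun a => InvImage.wf (fun p : {η : α // η < a} => e a p.1)
    (wellFounded_lt (α := V))
  let S : (a : α) → (n : ℕ) → {η : α // η < a} → Set α := fun a n p =>
    {x | x ∈ A p.1 ∧ x < a ∧ (∀ i < n, F x i = F a i) ∧ F a n < F x n}
  have hex := fun (a : α) (n : ℕ) => greedy (r a) (hr a) (S a n) (fun x => F x n)
  choose g hg using hex
  refine ⟨fun x a => ∃ n, ∃ p, g a n p = some x, ?_, ?_, ?_, ?_⟩
  · rintro x a ⟨n, p, h⟩
    exact ((hg a n p).1 x h).1.2.1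
  · rintro x a ⟨n, p, h⟩
    exact ⟨n, ((hg a n p).1 x h).1.2.2⟩
  · rintro x y a n ⟨m, p, hx⟩ ⟨l, q, hy⟩ hxy h1 h2 h3 h4
    have hx' := ((hg a m p).1 x hx).1.2.2
    have hy' := ((hg a l q).1 y hy).1.2.2
    have hm : m = n := by
      rcases lt_trichotomy m n with h | h | h
      · exact absurd (h1 m h) (ne_of_gt hx'.2)
      · exact h
      · exact absurd (hx'.1 n h) (ne_of_gt h2)
    have hl : l = n := by
      rcases lt_trichotomy l n with h | h | h
      · exact absurd (h3 l h) (ne_of_gt hy'.2)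
      · exact h
      · exact absurd (hy'.1 n h) (ne_of_gt h4)
    subst hm
    subst hl
    have hpq : p ≠ q := by
      rintro rfl
      rw [hx] at hy
      exact hxy (Option.some.inj hy)
    have hne : e a p.1 ≠ e a q.1 := by
      intro h
      exact hpq (Subtype.ext (he a p.2 q.2 h))
    rcases lt_or_gt_of_ne hne with h | h
    · exact ((hg a l q).1 y hy).2 p h x hx
    · exact (((hg a l p).1 x hx).2 q h y hy).symm
  · intro a η n hη hno
    let p : {η : α // η < a} := ⟨η, hη⟩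
    have hnone : g a n p = none := by
      cases h : g a n p with
      | none => rfl
      | some x => exact absurd ⟨n, p, h⟩ (hno x ((hg a n p).1 x h).1.1)
    have key : ∀ w : {w : W | ∃ x ∈ A η, x < a ∧ (∀ i < n, F x i = F a i) ∧ F a n < F x n ∧
        F x n = w}, ∃ q : {η : α // η < a}, r a q p ∧ ∃ x', g a n q = some x' ∧ F x' n = w.1 := by
      rintro ⟨w, x, hxA, hxa, h1, h2, rfl⟩
      exact (hg a n p).2 hnone x ⟨hxA, hxa, h1, h2⟩
    choose q hq x' hx' hw using key
    refine Cardinal.mk_le_of_injective (f := fun w => (⟨e a (q w).1, hq w⟩ : {v : V | v < e a η})) ?_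
    intro w₁ w₂ h
    have h1 : e a (q w₁).1 = e a (q w₂).1 := congrArg Subtype.val h
    have h2 : q w₁ = q w₂ := Subtype.ext (he a (q w₁).2 (q w₂).2 h1)
    have h3 : x' w₁ = x' w₂ := by
      have h4 := hx' w₁
      rw [h2, hx' w₂] at h4
      exact (Option.some.inj h4).symm
    apply Subtype.ext
    rw [← hw w₁, ← hw w₂, h3]

/-- No two different points are joined to a common infinite clique. -/
theorem no_clique {α W : Type} [LinearOrder α] [LinearOrder W] [WellFoundedLT W]
    (F : α → ℕ → W) (hF : Function.Injective F) (G : α → α → Prop)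
    (h1 : ∀ x a, G x a → ∃ n, (∀ i < n, F x i = F a i) ∧ F a n < F x n)
    (h2 : ∀ x y a n, G x a → G y a → x ≠ y → (∀ i < n, F x i = F a i) → F a n < F x n →
        (∀ i < n, F y i = F a i) → F a n < F y n → F x n ≠ F y n)
    (b : ℕ → α) (hb : StrictMono b) (hbG : ∀ m n, m < n → G (b m) (b n)) (γ δ : α)
    (hγ : ∀ n, G (b n) γ) (hδ : ∀ n, G (b n) δ) : γ = δ := by
  classical
  have fin : ∀ c, (∀ n, G (b n) c) → ∀ n,
      {m | (∀ i < n, F (b m) i = F c i) ∧ F c n < F (b m) n}.Finite := by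
    intro c hc n
    by_contra hinf
    have hinf' : {m | (∀ i < n, F (b m) i = F c i) ∧ F c n < F (b m) n}.Infinite := hinf
    let φ := Nat.nth (fun m => (∀ i < n, F (b m) i = F c i) ∧ F c n < F (b m) n)
    have hφ : StrictMono φ := Nat.nth_strictMono hinf'
    have hφmem : ∀ j, (∀ i < n, F (b (φ j)) i = F c i) ∧ F c n < F (b (φ j)) n := fun j =>
      Nat.nth_mem_of_infinite hinf' j
    refine not_strictAnti_of_wellFoundedLT (fun j => F (b (φ j)) n) ?_
    intro j j' hjj
    have hlt : φ j < φ j' := hφ hjj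
    have hG := hbG _ _ hlt
    have hne : b (φ j) ≠ b (φ j') := (hb hlt).ne
    have hFne := h2 _ _ _ n (hc (φ j)) (hc (φ j')) hne (hφmem j).1 (hφmem j).2 (hφmem j').1
      (hφmem j').2
    obtain ⟨m, hm1, hm2⟩ := h1 _ _ hG
    have hmn : m = n := by
      rcases lt_trichotomy m n with h | h | h
      · exact absurd (((hφmem j).1 m h).trans ((hφmem j').1 m h).symm) (ne_of_gt hm2)
      · exact h
      · exact absurd (hm1 n h) hFne
    subst hmn
    exact hm2
  by_contra hne
  have hFne : F γ ≠ F δ := fun h => hne (hF h)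
  obtain ⟨N, hN⟩ := Function.ne_iff.1 hFne
  have ev : ∀ c, (∀ n, G (b n) c) →
      {m | ¬ (F (b m) N = F c N)}.Finite := by
    intro c hc
    refine ((Set.finite_Iic N).biUnion (fun n _ => fin c hc n)).subset ?_
    intro m hm
    obtain ⟨n, hn1, hn2⟩ := h1 _ _ (hc m)
    simp only [Set.mem_iUnion]
    refine ⟨n, ?_, hn1, hn2⟩
    by_contra hlt
    exact hm (hn1 N (not_le.1 hlt))
  obtain ⟨m, hm⟩ := ((ev γ hγ).union (ev δ hδ)).infinite_compl.nonempty
  simp only [Set.mem_compl_iff, Set.mem_union, Set.mem_ofPred_eq, not_or, not_not] at hm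
  exact hN (hm.1.symm.trans hm.2)


/-- Sets of size at most `c` inject into a type of size `c`, with an injection depending only on
the set. -/
theorem exists_codes (W K : Type) [Nonempty K] :
    ∃ j : Set W → W → K, ∀ s : Set W, #s ≤ #K → Set.InjOn (j s) s := by
  classical
  have : ∀ s : Set W, ∃ j : W → K, #s ≤ #K → Set.InjOn j s := by
    intro s
    by_cases h : #s ≤ #K
    · obtain ⟨f⟩ := h
      refine ⟨fun w => if hw : w ∈ s then f ⟨w, hw⟩ else Classical.arbitrary K, fun _ => ?_⟩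
      intro x hx y hy hxy
      simp only [hx, hy, dif_pos] at hxy
      exact congrArg Subtype.val (f.injective hxy)
    · exact ⟨fun _ => Classical.arbitrary K, fun h' => absurd h' h⟩
  choose j hj using this
  exact ⟨j, hj⟩

/-- Few branches pass only through small upper parts. -/
theorem few_branches {α W K : Type} [LinearOrder W] [WellFoundedLT W] (hK : ℵ₀ ≤ #K)
    (F : α → ℕ → W) (hF : Function.Injective F) (B : Set α) :
    #{a : α | a ∈ B ∧ ∀ n, #{w : W | (∃ x ∈ B, (∀ i < n, F x i = F a i) ∧ F x n = w) ∧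
      F a n < w} ≤ #K} ≤ #K ^ ℵ₀ := by
  classical
  have : Nonempty K := by
    rw [← Cardinal.mk_ne_zero_iff]
    exact (Cardinal.aleph0_pos.trans_le hK).ne'
  obtain ⟨j, hj⟩ := exists_codes W K
  let Su : α → ℕ → Set W := fun a n => {w : W | ∃ x ∈ B, (∀ i < n, F x i = F a i) ∧ F x n = w}
  let U : α → ℕ → Set W := fun a n => {w : W | w ∈ Su a n ∧ #{w' : W | w' ∈ Su a n ∧ w < w'} ≤ #K}
  have hU : ∀ a n, #(U a n) ≤ #K := by
    intro a n
    by_cases hne : (U a n).Nonempty
    · let w₀ := (wellFounded_lt (α := W)).min (U a n) hne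
      have hw₀ : w₀ ∈ U a n := (wellFounded_lt (α := W)).min_mem _ hne
      have hsub : U a n ⊆ insert w₀ {w' : W | w' ∈ Su a n ∧ w₀ < w'} := by
        intro w hw
        rcases eq_or_ne w w₀ with h | h
        · exact Or.inl h
        · refine Or.inr ⟨hw.1, lt_of_le_of_ne ?_ (Ne.symm h)⟩
          exact not_lt.1 ((wellFounded_lt (α := W)).not_lt_min (U a n) hw)
      calc #(U a n) ≤ #(insert w₀ {w' : W | w' ∈ Su a n ∧ w₀ < w'} : Set W) :=
            Cardinal.mk_le_mk_of_subset hsub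
        _ ≤ #{w' : W | w' ∈ Su a n ∧ w₀ < w'} + 1 := Cardinal.mk_insert_le
        _ ≤ #K + 1 := by gcongr; exact hw₀.2
        _ = #K := Cardinal.add_one_eq hK
    · rw [Set.not_nonempty_iff_eq_empty.1 hne]
      simp
  have hmem : ∀ a : {a : α | a ∈ B ∧ ∀ n, #{w : W | (∃ x ∈ B, (∀ i < n, F x i = F a i) ∧
      F x n = w) ∧ F a n < w} ≤ #K}, ∀ n, F a.1 n ∈ U a.1 n := by
    rintro ⟨a, haB, ha⟩ n
    exact ⟨⟨a, haB, fun _ _ => rfl, rfl⟩, ha n⟩
  have hcongr : ∀ a a' n, (∀ i < n, F a i = F a' i) → U a n = U a' n := by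
    intro a a' n h
    have : Su a n = Su a' n := by
      ext w
      constructor
      · rintro ⟨x, hx, h1, h2⟩
        exact ⟨x, hx, fun i hi => (h1 i hi).trans (h i hi), h2⟩
      · rintro ⟨x, hx, h1, h2⟩
        exact ⟨x, hx, fun i hi => (h1 i hi).trans (h i hi).symm, h2⟩
    simp only [U, this]
  have hinj : Function.Injective (fun (a : {a : α | a ∈ B ∧ ∀ n,
      #{w : W | (∃ x ∈ B, (∀ i < n, F x i = F a i) ∧ F x n = w) ∧ F a n < w} ≤ #K}) (n : ℕ) =>
        j (U a.1 n) (F a.1 n)) := by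
    intro a a' h
    apply Subtype.ext
    apply hF
    funext n
    induction n using Nat.strong_induction_on with
    | _ n ih =>
      have h1 : j (U a.1 n) (F a.1 n) = j (U a'.1 n) (F a'.1 n) := congrFun h n
      have h2 : U a.1 n = U a'.1 n := hcongr _ _ n ih
      rw [← h2] at h1
      refine hj (U a.1 n) (hU _ _) (hmem a n) ?_ h1
      rw [h2]
      exact hmem a' n
  have := Cardinal.mk_le_of_injective hinj
  simpa using this

/-- A small subset with the same finite approximations. -/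
theorem dense_subset {α W : Type} (L : Cardinal) (hL : ℵ₀ ≤ L) (hW : #W ≤ L)
    (F : α → ℕ → W) (B : Set α) :
    ∃ A : Set α, A ⊆ B ∧ #A ≤ L ∧ ∀ x ∈ B, ∀ n, ∃ y ∈ A, ∀ i ≤ n, F y i = F x i := by
  classical
  let node : α → ℕ → (Σ n : ℕ, Fin n → W) := fun x n => ⟨n + 1, fun i => F x i⟩
  let N : Set (Σ n : ℕ, Fin n → W) := {t | ∃ x ∈ B, ∃ n, node x n = t}
  have hN : ∀ t : N, ∃ x, x ∈ B ∧ ∃ n, node x n = t.1 := fun t => t.2
  choose pick hpick using hN
  refine ⟨Set.range pick, ?_, ?_, ?_⟩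
  · rintro _ ⟨t, rfl⟩
    exact (hpick t).1
  · refine Cardinal.mk_range_le.trans ((Cardinal.mk_set_le N).trans ?_)
    rw [Cardinal.mk_sigma]
    refine (Cardinal.sum_le_sum _ (fun _ => L) ?_).trans ?_
    · intro n
      simp only [Cardinal.mk_pi, Cardinal.prod_const, Cardinal.mk_fin,
        Cardinal.lift_id]
      calc #W ^ (n : Cardinal) ≤ L ^ (n : Cardinal) := Cardinal.power_le_power_right hW
        _ ≤ L := Cardinal.power_nat_le hL
    · simp only [Cardinal.sum_const, Cardinal.mk_nat, Cardinal.lift_id]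
      exact (mul_le_mul' hL le_rfl).trans (Cardinal.mul_eq_self hL).le
  · intro x hx n
    have ht : node x n ∈ N := ⟨x, hx, n, rfl⟩
    refine ⟨pick ⟨node x n, ht⟩, ⟨_, rfl⟩, ?_⟩
    obtain ⟨-, m, hm⟩ := hpick ⟨node x n, ht⟩
    intro i hi
    have hm1 : m = n := by
      have := congrArg Sigma.fst hm
      simpa [node] using this
    subst hm1
    have h2 := eq_of_heq (Sigma.mk.inj hm).2
    exact congrFun h2 ⟨i, Nat.lt_succ_of_le hi⟩


theorem small_iUnion {α ι : Type} {L : Cardinal} (hL : ℵ₀ ≤ L) (hι : #ι ≤ L) (f : ι → Set α)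
    (hf : ∀ i, #(f i) ≤ L) : #(⋃ i, f i) ≤ L :=
  (Cardinal.mk_iUnion_le f).trans
    ((mul_le_mul' hι (ciSup_le' hf)).trans (Cardinal.mul_eq_self hL).le)

theorem small_union {α : Type} {L : Cardinal} (hL : ℵ₀ ≤ L) {s t : Set α}
    (hs : #s ≤ L) (ht : #t ≤ L) : #(s ∪ t : Set α) ≤ L :=
  (Cardinal.mk_union_le s t).trans ((add_le_add hs ht).trans (Cardinal.add_eq_self hL).le)

theorem exists_le_aleph_nat {c : Cardinal.{0}} (hc : c < ℵ_ Ordinal.omega0) :
    ∃ k : ℕ, c ≤ ℵ_ (k : Ordinal) := by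
  rw [Cardinal.aleph_limit Ordinal.isSuccLimit_omega0] at hc
  obtain ⟨⟨o, ho⟩, ho'⟩ := exists_lt_of_lt_ciSup' hc
  obtain ⟨k, rfl⟩ := Ordinal.lt_omega0.1 ho
  exact ⟨k, ho'.le⟩

/-- The graph on `ℵ_{ω+1}`. -/
theorem exists_big_graph
    (gch : ∀ κ : Cardinal.{0}, ℵ₀ ≤ κ → (2 : Cardinal.{0}) ^ κ = Order.succ κ)
    (α : Type) [LinearOrder α] (hα : #α = Order.succ (ℵ_ Ordinal.omega0))
    (hlt : ∀ a : α, #(Set.Iio a) ≤ ℵ_ Ordinal.omega0) :
    ∃ G : α → α → Prop,
      (∀ x a, G x a → x < a) ∧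
      (∀ B : Set α, #B = Order.succ (ℵ_ Ordinal.omega0) → ∃ x ∈ B, ∃ a ∈ B, G x a) ∧
      (∀ b : ℕ → α, StrictMono b → (∀ m n, m < n → G (b m) (b n)) →
        ∀ γ δ, (∀ n, G (b n) γ) → (∀ n, G (b n) δ) → γ = δ) := by
  classical
  set L : Cardinal.{0} := ℵ_ Ordinal.omega0 with hLdef
  have hL : ℵ₀ ≤ L := Cardinal.aleph0_le_aleph _
  let W : Type := L.ord.ToType
  have hW : #W = L := Cardinal.mk_ord_toType L
  have hWne : Nonempty W := by
    rw [← Cardinal.mk_ne_zero_iff, hW]
    exact (Cardinal.aleph0_pos.trans_le hL).ne'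
  -- coordinates
  have hF : ∃ F : α → ℕ → W, Function.Injective F := by
    have h1 : #α ≤ #(ℕ → W) := by
      rw [hα]
      have h2 : L < L ^ L.ord.cof := Cardinal.lt_power_cof_ord hL
      have h3 : L.ord.cof = ℵ₀ := by
        rw [hLdef, Cardinal.ord_aleph, Ordinal.cof_omega Ordinal.isSuccLimit_omega0,
          Ordinal.cof_omega0]
      rw [h3] at h2
      have h4 : #(ℕ → W) = L ^ ℵ₀ := by simp [hW]
      rw [h4]
      exact Order.succ_le_of_lt h2
    obtain ⟨F⟩ := h1
    exact ⟨F, F.injective⟩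
  obtain ⟨F, hF⟩ := hF
  -- tasks
  have hA : ∃ A : α → Set α, ∀ s : Set α, #s ≤ L → ∃ η, A η = s := by
    have hinf : Infinite α := by
      rw [← Cardinal.aleph0_le_mk_iff, hα]
      exact hL.trans (Order.le_succ L)
    have h1 : #{t : Set α // #t ≤ L} ≤ #α := by
      refine (Cardinal.mk_bounded_set_le_of_infinite α L).trans ?_
      rw [hα, ← gch L hL, ← Cardinal.power_mul, Cardinal.mul_eq_self hL]
    obtain ⟨f⟩ := h1
    refine ⟨fun η => if h : ∃ t, f t = η then (h.choose).1 else ∅, fun s hs => ⟨f ⟨s, hs⟩, ?_⟩⟩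
    have h : ∃ t, f t = f ⟨s, hs⟩ := ⟨_, rfl⟩
    simp only [h, dif_pos]
    have := f.injective h.choose_spec
    rw [this]
  obtain ⟨A, hA⟩ := hA
  -- ranks
  have he : ∃ e : α → α → W, ∀ a, Set.InjOn (e a) (Set.Iio a) := by
    have : ∀ a : α, ∃ j : α → W, Set.InjOn j (Set.Iio a) := by
      intro a
      obtain ⟨j, hj⟩ := exists_codes α W
      exact ⟨j (Set.Iio a), hj _ ((hlt a).trans hW.ge)⟩
    choose e he using this
    exact ⟨e, he⟩
  obtain ⟨e, he⟩ := he
  obtain ⟨G, hG1, hG2, hG3, hG4⟩ := exists_graph F A e he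
  refine ⟨G, hG1, ?_, ?_⟩
  · intro B hB
    by_contra hno
    push Not at hno
    obtain ⟨A₀, hA₀B, hA₀L, hA₀⟩ := dense_subset L hL hW.le F B
    obtain ⟨η, hη⟩ := hA A₀ hA₀L
    let K : ℕ → Type := fun k => (ℵ_ (k : Ordinal)).ord.ToType
    have hK : ∀ k, #(K k) = ℵ_ (k : Ordinal) := fun k => Cardinal.mk_ord_toType _
    let Bk : ℕ → Set α := fun k => {a : α | a ∈ B ∧ ∀ n, #{w : W | (∃ x ∈ B,
      (∀ i < n, F x i = F a i) ∧ F x n = w) ∧ F a n < w} ≤ #(K k)}
    have hBk : ∀ k, #(Bk k) ≤ L := by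
      intro k
      refine (few_branches (by rw [hK]; exact Cardinal.aleph0_le_aleph _) F hF B).trans ?_
      rw [hK]
      have h0 : ℵ₀ ≤ ℵ_ (k : Ordinal.{0}) := Cardinal.aleph0_le_aleph _
      calc (ℵ_ (k : Ordinal.{0})) ^ ℵ₀ ≤ (2 ^ (ℵ_ (k : Ordinal.{0}))) ^ ℵ₀ :=
            Cardinal.power_le_power_right (Cardinal.cantor _).le
        _ = 2 ^ (ℵ_ (k : Ordinal.{0})) := by
            rw [← Cardinal.power_mul, Cardinal.mul_aleph0_eq h0]
        _ = Order.succ (ℵ_ (k : Ordinal.{0})) := gch _ h0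
        _ ≤ L := by
            rw [Cardinal.succ_aleph]
            refine Cardinal.aleph_le_aleph.2 ?_
            exact Order.succ_le_of_lt (Ordinal.natCast_lt_omega0 k)
    have hIic : ∀ a : α, #(Set.Iic a) ≤ L := by
      intro a
      rw [← Set.Iio_insert]
      exact Cardinal.mk_insert_le.trans ((add_le_add (hlt a) (Cardinal.one_le_aleph0.trans hL)).trans
        (Cardinal.add_eq_self hL).le)
    have hsub : B ⊆ (Set.Iic η ∪ ⋃ x : A₀, Set.Iic x.1) ∪ ⋃ k, Bk k := by
      intro a haB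
      by_cases h1 : a ≤ η
      · exact Or.inl (Or.inl h1)
      by_cases h2 : ∃ x : A₀, a ≤ x.1
      · exact Or.inl (Or.inr (Set.mem_iUnion.2 h2))
      right
      push Not at h1 h2
      have hcard : #{v : W | v < e a η} < L := Cardinal.mk_Iio_toType_ord_lt (c := L) (e a η)
      obtain ⟨k, hk⟩ := exists_le_aleph_nat hcard
      refine Set.mem_iUnion.2 ⟨k, haB, ?_⟩
      intro n
      rw [hK]
      refine le_trans ?_ ((hG4 a η n h1 ?_).trans hk)
      · refine Cardinal.mk_le_mk_of_subset ?_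
        rintro w ⟨⟨x, hxB, hx1, hx2⟩, haw⟩
        obtain ⟨y, hyA, hy⟩ := hA₀ x hxB n
        refine ⟨y, hη ▸ hyA, h2 ⟨y, hyA⟩, ?_, ?_, ?_⟩
        · intro i hi
          rw [hy i hi.le, hx1 i hi]
        · rw [hy n le_rfl, hx2]
          exact haw
        · rw [hy n le_rfl, hx2]
      · intro x hx
        rw [hη] at hx
        exact hno x (hA₀B hx) a haB
    have hfin : #B ≤ L := by
      refine (Cardinal.mk_le_mk_of_subset hsub).trans ?_
      refine small_union hL (small_union hL (hIic η) ?_) ?_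
      · exact small_iUnion hL hA₀L _ fun x => hIic x.1
      · exact small_iUnion hL (by simpa using hL) _ hBk
    rw [hB] at hfin
    exact absurd hfin (not_le.2 (Order.lt_succ L))
  · intro b hb hbG γ δ hγ hδ
    exact no_clique F hF G hG2 hG3 b hb hbG γ δ hγ hδ

end Pool.Agent.Helper41.OmegaTwo
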